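import Pool.Agent.Lib_helper37.Giem.Main

/-! MP_78e4b4_an, Q1: the semi-conjugacy class of a standard interval exchange map without
connections need not be a topological submanifold of codimension `d - 1`. -/

set_option autoImplicit false

namespace Pool.Agent.Results.MP_78e4b4_an.NotSubmanifold

open Pool.Agent.Giem37

theorem result : ∃ π : Comb 4, π.Irreducible ∧ ∀ r : ℕ, 1 ≤ r → ∃ T0 : GIEM 4 r,
    IsStandard π T0 ∧ NoConnection π T0 ∧
    ¬ IsTopSubmanifold 3 {T : GIEM 4 r | SemiConj π T T0} ∧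
    ∀ S : Set (GIEM 4 r), {T : GIEM 4 r | SemiConj π T T0 ∧ BranchSemiConj π T T0} ⊆ S →
      ∀ k : ℕ, 3 ≤ k → ¬ IsTopSubmanifold k S := by
  obtain ⟨h1, h2⟩ := main_thm
  refine ⟨pi0, h1, fun r hr => ?_⟩
  obtain ⟨T0, h3, h4, h5⟩ := h2 r hr
  refine ⟨T0, h3, h4, ?_, fun S hS => ?_⟩
  · exact h5 _ (fun T hT _ => hT) 3 le_rfl
  · exact h5 S (fun T hT hT' => hS ⟨hT, hT'⟩)

end Pool.Agent.Results.MP_78e4b4_an.NotSubmanifold
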